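import Mathlib.LinearAlgebra.FiniteDimensional.Lemmas
import Mathlib.LinearAlgebra.Dimension.Constructions
import Mathlib.Analysis.Normed.Group.Constructions
import Mathlib.Analysis.Normed.Module.Basic
import Mathlib.Tactic

/-!
# Vectors near a subspace

`span_near`: if `k` vectors are near a subspace of dimension `k` and every one of them is away from the
span of the former ones, then every vector of the subspace is near a combination of them, with
bounded coefficients.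
-/

set_option autoImplicit false

namespace Pool.TT46

open Finset

variable {n : ℕ} {K ρ δ : ℝ}

/-- The coefficients are bounded by the norm of the combination. -/
theorem coef_bd {x : ℕ → Fin n → ℝ} (hK : 1 ≤ K) (hρ : 0 < ρ) (hρ1 : ρ ≤ 1) (k : ℕ) :
    (∀ l < k, ‖x l‖ ≤ K) → (∀ l < k, ∀ b : ℕ → ℝ, ρ ≤ ‖x l - ∑ i ∈ range l, b i • x i‖) →
    ∀ b : ℕ → ℝ, ∀ l < k, |b l| ≤ (2 * K / ρ) ^ k * ‖∑ i ∈ range k, b i • x i‖ := by
  have hq : 1 ≤ K / ρ := by
    rw [le_div_iff₀ hρ]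
    linarith
  have hq2 : 2 * K / ρ = 2 * (K / ρ) := by ring
  induction k with
  | zero => exact fun _ _ _ l hl => absurd hl (Nat.not_lt_zero l)
  | succ k ih =>
    intro hx hr b
    obtain ⟨v, hv⟩ : ∃ v, v = ∑ i ∈ range (k + 1), b i • x i := ⟨_, rfl⟩
    obtain ⟨v', hv'⟩ : ∃ v', v' = ∑ i ∈ range k, b i • x i := ⟨_, rfl⟩
    have e : v = v' + b k • x k := by rw [hv, hv', Finset.sum_range_succ]
    have htop : |b k| * ρ ≤ ‖v‖ := by
      by_cases h0 : b k = 0
      · rw [h0, abs_zero, zero_mul]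
        exact norm_nonneg _
      · have h1 := hr k (Nat.lt_succ_self k) fun i => -(b i / b k)
        have h2 : v = b k • (x k - ∑ i ∈ range k, -(b i / b k) • x i) := by
          rw [e, hv', smul_sub, Finset.smul_sum, add_comm, sub_eq_add_neg, ← Finset.sum_neg_distrib]
          congr 1
          refine Finset.sum_congr rfl fun i _ => ?_
          rw [smul_smul, ← neg_smul]
          congr 1
          field_simp
        rw [h2, norm_smul, Real.norm_eq_abs]
        exact mul_le_mul_of_nonneg_left h1 (abs_nonneg _)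
    have htop' : |b k| ≤ 1 / ρ * ‖v‖ := by
      rw [one_div, inv_mul_eq_div, le_div_iff₀ hρ]
      exact htop
    have h1ρ : 1 / ρ ≤ K / ρ := div_le_div_of_nonneg_right hK hρ.le
    have hv0 : 0 ≤ ‖v‖ := norm_nonneg _
    have hpow : 1 ≤ (2 * K / ρ) ^ k := one_le_pow₀ (by rw [hq2]; linarith)
    have hpow0 : 0 ≤ (2 * K / ρ) ^ k := zero_le_one.trans hpow
    intro l hl
    rw [← hv]
    rcases Nat.lt_or_ge l k with h | h
    · have h1 := ih (fun l hl => hx l (by omega)) (fun l hl => hr l (by omega)) b l h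
      rw [← hv'] at h1
      have h2 : ‖v'‖ ≤ 2 * K / ρ * ‖v‖ := by
        have e' : v' = v - b k • x k := by rw [e, add_sub_cancel_right]
        rw [e']
        refine (norm_sub_le _ _).trans ?_
        rw [norm_smul, Real.norm_eq_abs]
        have h3 : |b k| * ‖x k‖ ≤ 1 / ρ * ‖v‖ * K :=
          mul_le_mul htop' (hx k (Nat.lt_succ_self k)) (norm_nonneg _)
            ((abs_nonneg _).trans htop')
        have h4 : 1 / ρ * ‖v‖ * K = K / ρ * ‖v‖ := by ring
        rw [hq2]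
        nlinarith
      calc |b l| ≤ (2 * K / ρ) ^ k * ‖v'‖ := h1
        _ ≤ (2 * K / ρ) ^ k * (2 * K / ρ * ‖v‖) := mul_le_mul_of_nonneg_left h2 hpow0
        _ = _ := by rw [pow_succ]; ring
    · have h2 : l = k := by omega
      rw [h2, pow_succ]
      calc |b k| ≤ 1 / ρ * ‖v‖ := htop'
        _ ≤ 2 * K / ρ * ‖v‖ := by
            rw [hq2]
            exact mul_le_mul_of_nonneg_right (by linarith) hv0
        _ ≤ (2 * K / ρ) ^ k * (2 * K / ρ * ‖v‖) := le_mul_of_one_le_left (by positivity) hpow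
        _ = _ := by ring

/-- The constant. -/
noncomputable def Cst (n : ℕ) (K ρ : ℝ) : ℝ := 2 * (n + 1) * (2 * K / ρ) ^ n

theorem Cst_pos (hK : 1 ≤ K) (hρ : 0 < ρ) (n : ℕ) : 0 < Cst n K ρ := by
  unfold Cst
  have : 0 < 2 * K / ρ := by positivity
  positivity

/-- **Vectors near a subspace.** -/
theorem span_near {k : ℕ} (hK : 1 ≤ K) (hρ : 0 < ρ) (hρ1 : ρ ≤ 1) (hδ : 0 ≤ δ)
    (hδρ : δ * Cst n K ρ ≤ ρ) (V : Submodule ℝ (Fin n → ℝ)) (hV : Module.finrank ℝ V = k)
    (x : ℕ → Fin n → ℝ) (hx : ∀ l < k, ‖x l‖ ≤ K) (hxV : ∀ l < k, ∃ y ∈ V, ‖x l - y‖ ≤ δ)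
    (hr : ∀ l < k, ∀ b : ℕ → ℝ, ρ ≤ ‖x l - ∑ i ∈ range l, b i • x i‖) {la : Fin n → ℝ}
    (hla : la ∈ V) (hla1 : ‖la‖ ≤ 1) :
    ∃ c : ℕ → ℝ, (∀ l < k, |c l| ≤ Cst n K ρ) ∧
      ‖la - ∑ l ∈ range k, c l • x l‖ ≤ Cst n K ρ * δ := by
  classical
  have hq : 1 ≤ K / ρ := by
    rw [le_div_iff₀ hρ]
    linarith
  have hq2 : 1 ≤ 2 * K / ρ := by
    rw [show 2 * K / ρ = 2 * (K / ρ) by ring]
    linarith
  have hkn : k ≤ n := by
    rw [← hV]
    exact (Submodule.finrank_le V).trans (le_of_eq (by simp))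
  choose! y hyV hyx using hxV
  obtain ⟨C₀, hC₀⟩ : ∃ C₀, C₀ = (2 * K / ρ) ^ k := ⟨_, rfl⟩
  have hC₀1 : 1 ≤ C₀ := by rw [hC₀]; exact one_le_pow₀ hq2
  have hC₀n : C₀ ≤ (2 * K / ρ) ^ n := by rw [hC₀]; exact pow_le_pow_right₀ hq2 hkn
  have hkC : 2 * k * C₀ ≤ Cst n K ρ := by
    unfold Cst
    have h1 : (k : ℝ) ≤ n := by exact_mod_cast hkn
    exact mul_le_mul (by linarith) hC₀n (by linarith) (by positivity)
  have hC₂ : 2 * C₀ ≤ Cst n K ρ := by
    unfold Cst
    have h1 : (0 : ℝ) ≤ n := Nat.cast_nonneg n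
    exact mul_le_mul (by linarith) hC₀n (by linarith) (by positivity)
  -- combinations of the `x l` and of the `y l`
  have hdiff : ∀ (b : ℕ → ℝ) (B : ℝ), 0 ≤ B → (∀ l < k, |b l| ≤ B) →
      ‖∑ l ∈ range k, b l • y l - ∑ l ∈ range k, b l • x l‖ ≤ k * B * δ := by
    intro b B hB hb
    rw [← Finset.sum_sub_distrib]
    refine (norm_sum_le _ _).trans ?_
    refine (Finset.sum_le_sum (g := fun _ => B * δ) fun l hl => ?_).trans (le_of_eq ?_)
    · rw [← smul_sub, norm_smul, Real.norm_eq_abs, norm_sub_rev]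
      exact mul_le_mul (hb l (Finset.mem_range.1 hl)) (hyx l (Finset.mem_range.1 hl))
        (norm_nonneg _) hB
    · rw [Finset.sum_const, Finset.card_range, nsmul_eq_mul]
      ring
  have hcoef : ∀ (b : ℕ → ℝ), ∀ l < k, |b l| ≤ 2 * C₀ * ‖∑ l ∈ range k, b l • y l‖ := by
    intro b
    have h1 := coef_bd hK hρ hρ1 k hx hr b
    rw [← hC₀] at h1
    obtain ⟨v, hv⟩ : ∃ v, v = ∑ l ∈ range k, b l • x l := ⟨_, rfl⟩
    obtain ⟨w, hw⟩ : ∃ w, w = ∑ l ∈ range k, b l • y l := ⟨_, rfl⟩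
    rw [← hv] at h1
    have h2 := hdiff b (C₀ * ‖v‖) (by positivity) h1
    rw [← hv, ← hw] at h2
    have h3 : k * (C₀ * ‖v‖) * δ ≤ ‖v‖ / 2 := by
      have h4 : δ * (2 * k * C₀) ≤ 1 :=
        (mul_le_mul_of_nonneg_left hkC hδ).trans (hδρ.trans hρ1)
      have h5 : k * (C₀ * ‖v‖) * δ = δ * (2 * k * C₀) * (‖v‖ / 2) := by ring
      rw [h5]
      calc _ ≤ 1 * (‖v‖ / 2) := mul_le_mul_of_nonneg_right h4 (by positivity)
        _ = _ := one_mul _
    have h4 : ‖v‖ ≤ 2 * ‖w‖ := by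
      have h5 : ‖v‖ ≤ ‖w‖ + ‖w - v‖ := by
        have : v = w - (w - v) := by abel
        calc ‖v‖ = ‖w - (w - v)‖ := by rw [← this]
          _ ≤ _ := norm_sub_le _ _
      linarith
    intro l hl
    rw [← hw]
    calc |b l| ≤ C₀ * ‖v‖ := h1 l hl
      _ ≤ C₀ * (2 * ‖w‖) := mul_le_mul_of_nonneg_left h4 (by linarith)
      _ = _ := by ring
  -- the `y l` span the subspace
  have hli : LinearIndependent ℝ fun l : Fin k => (⟨y l, hyV l l.2⟩ : V) := by
    rw [Fintype.linearIndependent_iff]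
    intro g hg l
    obtain ⟨b, hb⟩ : ∃ b : ℕ → ℝ, b = fun l => if h : l < k then g ⟨l, h⟩ else 0 := ⟨_, rfl⟩
    have hbl : ∀ l : Fin k, b l = g l := by
      intro l
      rw [hb]
      exact dif_pos l.2
    have h1 : ∑ l ∈ range k, b l • y l = 0 := by
      rw [Finset.sum_range]
      have h2 := congrArg (Subtype.val) hg
      rw [Submodule.coe_sum] at h2
      simp only [Submodule.coe_smul, Submodule.coe_zero] at h2
      rw [← h2]
      exact Finset.sum_congr rfl fun l _ => by rw [hbl]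
    have h2 := hcoef b l l.2
    rw [h1, norm_zero, mul_zero, hbl] at h2
    exact abs_nonpos_iff.1 h2
  have hsp := hli.span_eq_top_of_card_eq_finrank' (by rw [Fintype.card_fin, hV])
  have hmem : (⟨la, hla⟩ : V) ∈ Submodule.span ℝ
      (Set.range fun l : Fin k => (⟨y l, hyV l l.2⟩ : V)) := by
    rw [hsp]
    exact Submodule.mem_top
  obtain ⟨g, hg⟩ := (Submodule.mem_span_range_iff_exists_fun ℝ).1 hmem
  obtain ⟨b, hb⟩ : ∃ b : ℕ → ℝ, b = fun l => if h : l < k then g ⟨l, h⟩ else 0 := ⟨_, rfl⟩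
  have hbl : ∀ l : Fin k, b l = g l := by
    intro l
    rw [hb]
    exact dif_pos l.2
  have h1 : ∑ l ∈ range k, b l • y l = la := by
    rw [Finset.sum_range]
    have h2 := congrArg (Subtype.val) hg
    rw [Submodule.coe_sum] at h2
    simp only [Submodule.coe_smul] at h2
    rw [← h2]
    exact Finset.sum_congr rfl fun l _ => by rw [hbl]
  have h2 : ∀ l < k, |b l| ≤ 2 * C₀ := by
    intro l hl
    have h3 := hcoef b l hl
    rw [h1] at h3
    calc |b l| ≤ 2 * C₀ * ‖la‖ := h3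
      _ ≤ 2 * C₀ * 1 := mul_le_mul_of_nonneg_left hla1 (by linarith)
      _ = _ := mul_one _
  refine ⟨b, fun l hl => (h2 l hl).trans hC₂, ?_⟩
  have h3 := hdiff b (2 * C₀) (by linarith) h2
  rw [h1] at h3
  calc _ ≤ k * (2 * C₀) * δ := h3
    _ = 2 * k * C₀ * δ := by ring
    _ ≤ _ := mul_le_mul_of_nonneg_right hkC hδ

end Pool.TT46
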